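import Pool.Agent.Helper741.GroupVN.Basic

/-! The group `ℤ[√2] ⋊ ℤ[√2]ˣ`. -/

open scoped ENNReal lp

namespace Pool.Agent.Helper741.GroupVN

theorem two_ne_sq (n : ℤ) : (2 : ℤ) ≠ n * n := by
  intro h
  have h1 : |n| ≤ 1 ∨ 2 ≤ |n| := by omega
  rcases h1 with h1 | h1
  · have : n * n ≤ 1 := by
      rw [← abs_mul_abs_self n]
      nlinarith [abs_nonneg n]
    omega
  · have : 4 ≤ n * n := by
      rw [← abs_mul_abs_self n]
      nlinarith
    omega

instance : NoZeroDivisors (Zsqrtd 2) where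
  eq_zero_or_eq_zero_of_mul_eq_zero {a b} h := by
    have h1 := congrArg Zsqrtd.norm h
    rw [Zsqrtd.norm_mul, Zsqrtd.norm_zero] at h1
    rcases mul_eq_zero.mp h1 with h2 | h2
    · exact Or.inl ((Zsqrtd.norm_eq_zero two_ne_sq a).mp h2)
    · exact Or.inr ((Zsqrtd.norm_eq_zero two_ne_sq b).mp h2)

instance : IsDomain (Zsqrtd 2) := NoZeroDivisors.to_isDomain _

/-- affine maps `x ↦ c x + e` of `ℤ[√2]` -/
@[ext] structure Aff where
  e : Zsqrtd 2
  c : (Zsqrtd 2)ˣ

namespace Aff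

instance : Mul Aff := ⟨fun x y => ⟨x.e + x.c * y.e, x.c * y.c⟩⟩
instance : One Aff := ⟨⟨0, 1⟩⟩
instance : Inv Aff := ⟨fun x => ⟨-((x.c⁻¹ : (Zsqrtd 2)ˣ) * x.e), x.c⁻¹⟩⟩

theorem mul_def (x y : Aff) : x * y = ⟨x.e + x.c * y.e, x.c * y.c⟩ := rfl
theorem one_def : (1 : Aff) = ⟨0, 1⟩ := rfl
theorem inv_def (x : Aff) : x⁻¹ = ⟨-((x.c⁻¹ : (Zsqrtd 2)ˣ) * x.e), x.c⁻¹⟩ := rfl

instance : Group Aff := Group.ofLeftAxioms
  (fun x y z => by
    simp only [mul_def]
    ext1
    · simp only [Units.val_mul]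
      ring
    · simp only [mul_assoc])
  (fun x => by
    simp only [mul_def, one_def]
    ext1
    · simp
    · simp)
  (fun x => by
    simp only [mul_def, one_def, inv_def]
    ext1
    · simp
    · simp)

@[simp] theorem mul_e (x y : Aff) : (x * y).e = x.e + x.c * y.e := rfl
@[simp] theorem mul_c (x y : Aff) : (x * y).c = x.c * y.c := rfl
@[simp] theorem one_e : (1 : Aff).e = 0 := rfl
@[simp] theorem one_c : (1 : Aff).c = 1 := rfl
@[simp] theorem inv_e (x : Aff) : (x⁻¹).e = -((x.c⁻¹ : (Zsqrtd 2)ˣ) * x.e) := rfl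
@[simp] theorem inv_c (x : Aff) : (x⁻¹).c = x.c⁻¹ := rfl

noncomputable instance : DecidableEq Aff := Classical.decEq _

instance : Countable (Zsqrtd 2) := by
  have : Function.Injective fun z : Zsqrtd 2 => (z.re, z.im) := by
    intro a b h
    simp only [Prod.mk.injEq] at h
    exact Zsqrtd.ext h.1 h.2
  exact this.countable

instance : Countable Aff := by
  have : Function.Injective fun x : Aff => (x.e, (x.c : Zsqrtd 2)) := by
    intro a b h
    simp only [Prod.mk.injEq] at h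
    exact Aff.ext h.1 (Units.ext h.2)
  exact this.countable

/-- the translation by `k` -/
def tr (k : ℤ) : Aff := ⟨(k : Zsqrtd 2), 1⟩

@[simp] theorem tr_e (k : ℤ) : (tr k).e = (k : Zsqrtd 2) := rfl
@[simp] theorem tr_c (k : ℤ) : (tr k).c = 1 := rfl

theorem tr_mul (j k : ℤ) : tr j * tr k = tr (j + k) := by
  ext1
  · simp
  · simp

theorem tr_inv (k : ℤ) : (tr k)⁻¹ = tr (-k) := by
  ext1
  · simp
  · simp

theorem tr_zero : tr 0 = 1 := by
  ext1
  · simp
  · simp

theorem tr_zpow (k m : ℤ) : (tr k) ^ m = tr (k * m) := by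
  induction m using Int.induction_on with
  | zero => simp [tr_zero]
  | succ i ih => rw [zpow_add_one, ih, tr_mul]; congr 1; ring
  | pred i ih => rw [zpow_sub_one, ih, tr_inv, tr_mul]; congr 1; ring

theorem coset (k m n : ℤ) (g : Aff) :
    (tr k) ^ m * g * (tr k) ^ n = ⟨((k * m : ℤ) : Zsqrtd 2) + g.e + g.c * ((k * n : ℤ) : Zsqrtd 2), g.c⟩ := by
  rw [tr_zpow, tr_zpow]
  ext1
  · simp
  · simp

theorem coset_inj {k : ℤ} (hk : k ≠ 0) {g : Aff} (hg : (g.c : Zsqrtd 2).im ≠ 0) :
    Function.Injective fun p : ℤ × ℤ => (tr k) ^ p.1 * g * (tr k) ^ p.2 := by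
  rintro ⟨m, n⟩ ⟨m', n'⟩ h
  simp only [coset] at h
  have h1 := congrArg Aff.e h
  simp only at h1
  have him := congrArg Zsqrtd.im h1
  have hre := congrArg Zsqrtd.re h1
  simp only [Zsqrtd.im_add, Zsqrtd.im_intCast, Zsqrtd.im_mul, Zsqrtd.re_intCast, mul_zero,
    zero_add] at him
  simp only [Zsqrtd.re_add, Zsqrtd.re_intCast, Zsqrtd.re_mul, Zsqrtd.im_intCast, mul_zero,
    add_zero] at hre
  have hn : n = n' := by
    have h2 : (g.c : Zsqrtd 2).im * (k * n) = (g.c : Zsqrtd 2).im * (k * n') := by linarith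
    exact mul_left_cancel₀ hk (mul_left_cancel₀ hg h2)
  subst hn
  have hm : m = m' := by
    have h2 : k * m = k * m' := by linarith
    exact mul_left_cancel₀ hk h2
  rw [hm]

theorem unit_cases {c : (Zsqrtd 2)ˣ} (hc : (c : Zsqrtd 2).im = 0) : c = 1 ∨ c = -1 := by
  have h1 : (c : Zsqrtd 2) * ((c⁻¹ : (Zsqrtd 2)ˣ) : Zsqrtd 2) = 1 := by simp
  have h2 := congrArg Zsqrtd.re h1
  simp only [Zsqrtd.re_mul, hc, mul_zero, zero_mul, add_zero, Zsqrtd.re_one] at h2
  rcases Int.eq_one_or_neg_one_of_mul_eq_one h2 with h | h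
  · left
    apply Units.ext
    exact Zsqrtd.ext (by simpa using h) (by simpa using hc)
  · right
    apply Units.ext
    refine Zsqrtd.ext (by simpa using h) (by simpa using hc)

theorem commute_sym_tr_iff {x : L2 Aff →L[ℂ] L2 Aff} (hx : x ∈ LG Aff) {k : ℤ} (hk : k ≠ 0) :
    Commute x (sym (tr k)) ↔ ∀ g : Aff, (g.c : Zsqrtd 2).im ≠ 0 → x (delta 1) g = 0 := by
  rw [commute_sym_iff hx]
  constructor
  · intro h g hg
    exact wave (tr k) g (coset_inj hk hg) h
  · intro h g
    by_cases hg : (g.c : Zsqrtd 2).im = 0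
    · rcases unit_cases hg with hc | hc
      · have e1 : (tr k)⁻¹ * g = g * (tr k)⁻¹ := by
          rw [tr_inv]
          ext1
          · simp [hc, add_comm]
          · simp
        have e2 : (tr k) * g = g * (tr k) := by
          ext1
          · simp [hc, add_comm]
          · simp
        rw [e1, e2]
      · have e1 : (tr k)⁻¹ * g = g * (tr k) := by
          rw [tr_inv]
          ext1
          · simp [hc]
            ring
          · simp
        have e2 : (tr k) * g = g * (tr k)⁻¹ := by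
          rw [tr_inv]
          ext1
          · simp [hc, add_comm]
          · simp
        rw [e1, e2, add_comm]
    · rw [h _ (by rw [tr_inv]; simpa using hg), h _ (by simpa using hg),
        h _ (by rw [tr_inv]; simpa using hg), h _ (by simpa using hg)]

/-- the fundamental unit -/
def eps : (Zsqrtd 2)ˣ where
  val := ⟨1, 1⟩
  inv := ⟨-1, 1⟩
  val_inv := by decide
  inv_val := by decide

theorem eps_pow_pos (k : ℕ) : 0 < ((eps ^ k : (Zsqrtd 2)ˣ) : Zsqrtd 2).re ∧
    0 ≤ ((eps ^ k : (Zsqrtd 2)ˣ) : Zsqrtd 2).im := by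
  induction k with
  | zero => simp
  | succ k ih =>
    rw [pow_succ, Units.val_mul, Zsqrtd.re_mul, Zsqrtd.im_mul]
    have h1 : (eps : Zsqrtd 2).re = 1 := rfl
    have h2 : (eps : Zsqrtd 2).im = 1 := rfl
    rw [h1, h2]
    constructor <;> linarith [ih.1, ih.2]

theorem eps_im_strictMono : StrictMono fun k : ℕ => ((eps ^ k : (Zsqrtd 2)ˣ) : Zsqrtd 2).im := by
  refine strictMono_nat_of_lt_succ fun k => ?_
  rw [pow_succ, Units.val_mul, Zsqrtd.im_mul]
  have h1 : (eps : Zsqrtd 2).re = 1 := rfl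
  have h2 : (eps : Zsqrtd 2).im = 1 := rfl
  rw [h1, h2]
  have := eps_pow_pos k
  linarith [this.1]

theorem icc (g : Aff) (hg : g ≠ 1) : ∃ f : ℕ → Aff, Function.Injective
    fun k => f k * g * (f k)⁻¹ := by
  by_cases hc : g.c = 1
  · have he : g.e ≠ 0 := by
      intro he
      exact hg (Aff.ext he hc)
    refine ⟨fun k => ⟨0, eps ^ k⟩, ?_⟩
    intro a b hab
    have h1 := congrArg Aff.e hab
    simp only [mul_e, inv_e, mul_zero, neg_zero, add_zero, zero_add] at h1
    have h2 := mul_right_cancel₀ he h1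
    exact eps_im_strictMono.injective (congrArg Zsqrtd.im h2)
  · refine ⟨fun k => ⟨(k : Zsqrtd 2), 1⟩, ?_⟩
    intro a b hab
    have h1 := congrArg Aff.e hab
    simp only [mul_e, inv_e, mul_c, Units.val_one, one_mul, inv_one] at h1
    have h2 : ((a : Zsqrtd 2) - b) * (1 - (g.c : Zsqrtd 2)) = 0 := by
      linear_combination h1
    rcases mul_eq_zero.mp h2 with h3 | h3
    · have := congrArg Zsqrtd.re (sub_eq_zero.mp h3)
      simpa using this
    · exfalso
      apply hc
      apply Units.ext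
      exact (sub_eq_zero.mp h3).symm

end Aff

end Pool.Agent.Helper741.GroupVN
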