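import Pool.Agent.Helper741.GroupVN.Aff

/-! The counterexample. -/

open scoped ENNReal lp

namespace Pool.Agent.Helper741.GroupVN

open Aff

/-- Double commutant of a symmetry. -/
theorem bicommutant_symmetry {H : Type} [NormedAddCommGroup H] [InnerProductSpace ℂ H]
    [CompleteSpace H] {w z : H →L[ℂ] H} (hw : IsSelfAdjoint w) (hw2 : w * w = 1) {p q : H}
    (hp : p ≠ 0) (hwp : w p = p) (hq : q ≠ 0) (hwq : w q = -q)
    (hz : z ∈ Set.centralizer (Set.centralizer ({w} : Set (H →L[ℂ] H)))) :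
    ∃ α β : ℂ, z = α • (1 : H →L[ℂ] H) + β • w := by
  have hsym : ∀ x y : H, inner ℂ (w x) y = inner ℂ x (w y) := by
    intro x y
    exact (ContinuousLinearMap.isSelfAdjoint_iff_isSymmetric.mp hw) x y
  have key : ∀ (ε : ℂ), (starRingEnd ℂ) ε = ε → ∀ v : H, v ≠ 0 → w v = ε • v →
      ∃ c : ℂ, ∀ u, w u = ε • u → z u = c • u := by
    intro ε hε v hv hwv
    refine ⟨inner ℂ v (z v) / inner ℂ v v, fun u hu => ?_⟩
    have hT : (innerSL ℂ v).smulRight u ∈ Set.centralizer ({w} : Set (H →L[ℂ] H)) := by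
      rw [Set.mem_centralizer_iff]
      rintro _ rfl
      ext x
      simp only [mul_apply_eq_comp, ContinuousLinearMap.smulRight_apply, innerSL_apply_apply]
      rw [map_smul, hu, ← hsym, hwv, inner_smul_left, hε, smul_smul, mul_comm]
    have h1 := (Set.mem_centralizer_iff.mp hz) _ hT
    have h2 := congrArg (fun T : H →L[ℂ] H => T v) h1
    simp only [mul_apply_eq_comp, ContinuousLinearMap.smulRight_apply, innerSL_apply_apply] at h2
    rw [map_smul] at h2
    have hvv : (inner ℂ v v : ℂ) ≠ 0 := inner_self_ne_zero.mpr hv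
    rw [div_eq_inv_mul, mul_smul, h2, smul_smul, inv_mul_cancel₀ hvv, one_smul]
  obtain ⟨c, hc⟩ := key 1 (by simp) p hp (by rw [hwp, one_smul])
  obtain ⟨d, hd⟩ := key (-1) (by simp) q hq (by rw [hwq, neg_smul, one_smul])
  have hww : ∀ x, w (w x) = x := fun x => by
    have := congrArg (fun T : H →L[ℂ] H => T x) hw2
    simpa using this
  refine ⟨(c + d) / 2, (c - d) / 2, ?_⟩
  ext x
  have h1 : z (x + w x) = c • (x + w x) := hc _ (by rw [map_add, hww, one_smul, add_comm])
  have h2 : z (x - w x) = d • (x - w x) := hd _ (by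
    rw [map_sub, hww, neg_smul, one_smul, neg_sub])
  rw [map_add] at h1
  rw [map_sub] at h2
  simp only [_root_.add_apply, _root_.smul_apply, one_apply_eq_self]
  have h3 : (2 : ℂ) • z x = c • (x + w x) + d • (x - w x) := by
    rw [← h1, ← h2, two_smul]
    abel
  have h4 : z x = (2 : ℂ)⁻¹ • (c • (x + w x) + d • (x - w x)) := by
    rw [← h3, smul_smul, inv_mul_cancel₀ two_ne_zero, one_smul]
  rw [h4]
  module

/-- the elements `a` and `b` -/
noncomputable def aa : L2 Aff →L[ℂ] L2 Aff := sym (tr 2)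
noncomputable def bb : L2 Aff →L[ℂ] L2 Aff := sym (tr 1)

theorem same_commutant {x : L2 Aff →L[ℂ] L2 Aff} (hx : x ∈ LG Aff) :
    Commute x aa ↔ Commute x bb :=
  (commute_sym_tr_iff hx (by norm_num)).trans (commute_sym_tr_iff hx (by norm_num)).symm

/-- reflections -/
def refl1 : Aff := ⟨1, -1⟩
def refl2 : Aff := ⟨0, -1⟩

theorem refl1_sq : refl1 * refl1 = 1 := by
  ext1
  · simp [refl1]
  · simp [refl1]

theorem refl2_sq : refl2 * refl2 = 1 := by
  ext1
  · simp [refl2]
  · simp [refl2]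

theorem refl12 : refl1 * refl2 = tr 1 := by
  ext1
  · simp [refl1, refl2]
  · simp [refl1, refl2]

theorem refl21 : refl2 * refl1 = (tr 1)⁻¹ := by
  rw [tr_inv]
  ext1
  · simp [refl1, refl2]
  · simp [refl1, refl2]

theorem bb_eq : bb = lam refl1 * lam refl2 + lam refl2 * lam refl1 := by
  rw [lam_mul, lam_mul, refl12, refl21]
  rfl

theorem lam_symmetry {s : Aff} (hs : s * s = 1) (hs1 : s ≠ 1) {z : L2 Aff →L[ℂ] L2 Aff}
    (hz : z ∈ Set.centralizer (Set.centralizer ({lam s} : Set (L2 Aff →L[ℂ] L2 Aff)))) :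
    ∃ α β : ℂ, z = α • (1 : L2 Aff →L[ℂ] L2 Aff) + β • lam s := by
  have hinv : s⁻¹ = s := inv_eq_of_mul_eq_one_left hs
  refine bicommutant_symmetry (w := lam s) (p := delta 1 + delta s) (q := delta 1 - delta s)
    ?_ ?_ ?_ ?_ ?_ ?_ hz
  · rw [IsSelfAdjoint, star_lam, hinv]
  · rw [lam_mul, hs, lam_one]
  · intro h
    have := congrArg (fun ξ : L2 Aff => ξ 1) h
    simp only [lp.coeFn_add, Pi.add_apply, delta_apply, lp.coeFn_zero, Pi.zero_apply] at this
    rw [if_neg (Ne.symm hs1)] at this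
    simp at this
  · rw [map_add, lam_delta, lam_delta, mul_one, hs, add_comm]
  · intro h
    have := congrArg (fun ξ : L2 Aff => ξ 1) h
    simp only [lp.coeFn_sub, Pi.sub_apply, delta_apply, lp.coeFn_zero, Pi.zero_apply] at this
    rw [if_neg (Ne.symm hs1)] at this
    simp at this
  · rw [map_sub, lam_delta, lam_delta, mul_one, hs, neg_sub]

/-- parity projection -/
noncomputable def par : L2 Aff →L[ℂ] L2 Aff := by
  classical
  exact pop (fun g : Aff => Even g.e.re) (Equiv.refl _)

theorem par_apply (ξ : L2 Aff) (g : Aff) [Decidable (Even g.e.re)] :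
    par ξ g = if Even g.e.re then ξ g else 0 := by
  unfold par
  rw [pop_apply]
  congr

theorem par_commute_aa : par * aa = aa * par := by
  classical
  ext ξ g
  change par (aa ξ) g = aa (par ξ) g
  unfold aa
  rw [par_apply, sym_apply, sym_apply, par_apply, par_apply]
  have e1 : Even ((tr 2)⁻¹ * g).e.re ↔ Even g.e.re := by
    rw [tr_inv]
    simp [Int.even_add]
  have e2 : Even (tr 2 * g).e.re ↔ Even g.e.re := by
    simp [Int.even_add]
  by_cases h : Even g.e.re
  · rw [if_pos h, if_pos (e1.mpr h), if_pos (e2.mpr h)]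
  · rw [if_neg h, if_neg (fun h' => h (e1.mp h')), if_neg (fun h' => h (e2.mp h')), add_zero]

theorem par_not_commute_bb : par * bb ≠ bb * par := by
  classical
  intro h
  have h1 := congrArg (fun T : L2 Aff →L[ℂ] L2 Aff => T (delta 1) (tr 1)) h
  simp only [mul_apply_eq_comp] at h1
  unfold bb at h1
  rw [par_apply, sym_apply, sym_apply, par_apply, par_apply] at h1
  rw [if_neg (by simp)] at h1
  rw [inv_mul_cancel, if_pos (by simp)] at h1
  rw [tr_mul, delta_apply, delta_apply, if_pos rfl] at h1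
  have : (tr (1 + 1)) ≠ 1 := by
    intro h
    have := congrArg (fun x : Aff => x.e.re) h
    simp at this
  rw [if_neg this] at h1
  simp at h1

theorem lam_ne_sym {s : Aff} {k : ℤ} (hs : (s.c : Zsqrtd 2) ≠ 1) :
    lam s ≠ sym (tr k) := by
  intro h
  have h1 := congrArg (fun T : L2 Aff →L[ℂ] L2 Aff => T (delta 1) s) h
  simp only at h1
  rw [lam_delta, mul_one, sym_apply, delta_apply, delta_apply, delta_apply, if_pos rfl,
    if_neg, if_neg] at h1
  · simp at h1
  · intro h
    apply hs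
    have := congrArg (fun x : Aff => ((x.c : (Zsqrtd 2)ˣ) : Zsqrtd 2)) h
    simpa using this
  · intro h
    apply hs
    have := congrArg (fun x : Aff => ((x.c : (Zsqrtd 2)ˣ) : Zsqrtd 2)) h
    rw [tr_inv] at this
    simpa using this

theorem refl_c_ne : (((-1 : (Zsqrtd 2)ˣ)) : Zsqrtd 2) ≠ 1 := by
  intro h
  have := congrArg Zsqrtd.re h
  simp at this

/-- `L(G)` is not spanned by four elements. -/
theorem big (s : Finset (L2 Aff →L[ℂ] L2 Aff)) (hs : s.card ≤ 4)
    (h : ∀ x ∈ LG Aff, x ∈ Submodule.span ℂ (s : Set (L2 Aff →L[ℂ] L2 Aff))) : False := by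
  classical
  have hli : LinearIndependent ℂ (fun k : Fin 5 => (lam (tr (k : ℕ)) : L2 Aff →L[ℂ] L2 Aff)) := by
    rw [Fintype.linearIndependent_iff]
    intro g hg i
    have h1 := congrArg (fun T : L2 Aff →L[ℂ] L2 Aff => T (delta 1) (tr (i : ℕ))) hg
    simp only [_root_.sum_apply, _root_.smul_apply, lam_delta, mul_one, lp.coeFn_sum,
      Finset.sum_apply, lp.coeFn_smul, Pi.smul_apply, delta_apply, smul_eq_mul] at h1
    rw [Finset.sum_eq_single i] at h1
    · simpa using h1
    · intro j _ hj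
      rw [if_neg, mul_zero]
      intro hh
      apply hj
      have := congrArg (fun x : Aff => x.e.re) hh
      simp at this
      exact Fin.ext (by exact_mod_cast this.symm)
    · intro hh
      exact absurd (Finset.mem_univ _) hh
  have hfd : FiniteDimensional ℂ (Submodule.span ℂ (s : Set (L2 Aff →L[ℂ] L2 Aff))) :=
    FiniteDimensional.span_finset ℂ s
  let v : Fin 5 → Submodule.span ℂ (s : Set (L2 Aff →L[ℂ] L2 Aff)) := fun k =>
    ⟨lam (tr (k : ℕ)), h _ (lam_mem _)⟩
  have hv : LinearIndependent ℂ v := by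
    refine LinearIndependent.of_comp (Submodule.span ℂ (s : Set (L2 Aff →L[ℂ] L2 Aff))).subtype ?_
    exact hli
  have h1 := hv.fintype_card_le_finrank
  have h2 := finrank_span_finset_le_card (R := ℂ) s
  simp only [Fintype.card_fin] at h1
  have h3 : Module.finrank ℂ (Submodule.span ℂ (s : Set (L2 Aff →L[ℂ] L2 Aff))) ≤ s.card := h2
  omega

end Pool.Agent.Helper741.GroupVN
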